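import Mathlib

/-!
# Pairs of homomorphisms to fields of infinitely many characteristics

If two rings of integers have homomorphisms to the same fields of infinitely many characteristics, which
agree on given pairs of elements with finitely many exceptions, then the number fields have embeddings
into any algebraically closed field of characteristic zero which agree on these pairs.
-/

set_option autoImplicit false

namespace Pool.Agent.J4.H13.RC

open NumberField

variable {I : Type} (F : I → Type) [∀ i, Field (F i)]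

/-- The elements of the product with finite support. -/
def finIdeal : Ideal (∀ i, F i) where
  carrier := {x | {i | x i ≠ 0}.Finite}
  zero_mem' := by simp
  add_mem' := by
    intro x y hx hy
    refine (Set.Finite.union hx hy).subset fun i hi => ?_
    by_contra hcon
    simp only [Set.mem_union, Set.mem_ofPred_eq, not_or, not_not] at hcon
    apply hi
    show x i + y i = 0
    rw [hcon.1, hcon.2, add_zero]
  smul_mem' := by
    intro c x hx
    refine Set.Finite.subset hx fun i hi h0 => hi ?_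
    show c i * x i = 0
    rw [h0, mul_zero]

theorem mem_finIdeal {x : ∀ i, F i} : x ∈ finIdeal F ↔ {i | x i ≠ 0}.Finite := Iff.rfl

theorem exists_maximal [Infinite I] (hF : ∀ n : ℕ, n ≠ 0 → {i | (n : F i) = 0}.Finite) :
    ∃ 𝔪 : Ideal (∀ i, F i), 𝔪.IsMaximal ∧ finIdeal F ≤ 𝔪 ∧
      ∀ n : ℕ, n ≠ 0 → (n : ∀ i, F i) ∉ 𝔪 := by
  have h1 : finIdeal F ≠ ⊤ := by
    rw [Ne, Ideal.eq_top_iff_one, mem_finIdeal]
    intro h
    have h2 : {i | (1 : ∀ i, F i) i ≠ 0} = Set.univ := by
      ext i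
      simp
    rw [h2] at h
    exact Set.infinite_univ h
  obtain ⟨𝔪, h𝔪, hle⟩ := Ideal.exists_le_maximal _ h1
  refine ⟨𝔪, h𝔪, hle, fun n hn hmem => ?_⟩
  let u : ∀ i, F i := fun i => (n : F i)⁻¹
  have h2 : (n : ∀ i, F i) * u - 1 ∈ finIdeal F := by
    rw [mem_finIdeal]
    refine (hF n hn).subset fun i hi => ?_
    by_contra h0
    apply hi
    show (n : F i) * (n : F i)⁻¹ - 1 = 0
    rw [mul_inv_cancel₀ h0, sub_self]
  have h3 : (1 : ∀ i, F i) ∈ 𝔪 := by
    have h4 := 𝔪.sub_mem (𝔪.mul_mem_right u hmem) (hle h2)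
    rwa [sub_sub_cancel] at h4
  exact h𝔪.ne_top ((Ideal.eq_top_iff_one _).2 h3)

/-- An extension of a homomorphism from the ring of integers to a field of characteristic zero. -/
theorem exists_extension {M : Type} [Field M] [NumberField M] {K Ω : Type} [Field K] [CharZero K]
    [Field Ω] (r : 𝓞 M →+* K) (e : algebraicClosure ℚ K →+* Ω) :
    ∃ τ : M →+* Ω, ∀ (b : 𝓞 M) (z : algebraicClosure ℚ K), (z : K) = r b → τ (b : M) = e z := by
  have hinj : Function.Injective r := by
    rw [injective_iff_map_eq_zero]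
    intro x hx
    have h1 : RingHom.ker r = ⊥ := by
      refine Ideal.eq_bot_of_comap_eq_bot (R := ℤ) ?_
      rw [eq_bot_iff]
      intro n hn
      have h2 : r (algebraMap ℤ (𝓞 M) n) = 0 := hn
      rw [eq_intCast, map_intCast] at h2
      exact_mod_cast h2
    have h2 : x ∈ RingHom.ker r := hx
    rwa [h1] at h2
  let s : M →+* K := IsFractionRing.lift hinj
  have hs : ∀ x : M, s x ∈ algebraicClosure ℚ K := fun x => by
    have h1 : IsAlgebraic ℚ x := Algebra.IsAlgebraic.isAlgebraic x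
    have h2 : IsAlgebraic ℚ (s.toRatAlgHom x) := h1.algHom s.toRatAlgHom
    exact mem_algebraicClosure_iff.2 h2
  refine ⟨e.comp (s.codRestrict (algebraicClosure ℚ K) hs), fun b z hz => ?_⟩
  show e _ = e z
  congr 1
  apply Subtype.ext
  rw [hz]
  exact IsFractionRing.lift_algebraMap hinj b

theorem closure_hom (K Ω : Type) [Field K] [CharZero K] [Field Ω] [IsAlgClosed Ω] [CharZero Ω] :
    Nonempty (algebraicClosure ℚ K →+* Ω) := by
  have : Algebra.IsAlgebraic ℚ (algebraicClosure ℚ K) := by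
    refine ⟨fun x => ?_⟩
    let v : algebraicClosure ℚ K →+* K := (algebraicClosure ℚ K).val.toRingHom
    have h1 : IsAlgebraic ℚ (v.toRatAlgHom x) := mem_algebraicClosure_iff.1 x.2
    exact (isAlgebraic_algHom_iff v.toRatAlgHom v.injective).1 h1
  exact ⟨(IsAlgClosed.lift : algebraicClosure ℚ K →ₐ[ℚ] Ω).toRingHom⟩

/-- Integral elements are algebraic. -/
theorem mem_closure_of_hom {Z : Type} [Field Z] [NumberField Z] {K : Type} [Field K] [CharZero K]
    (s : 𝓞 Z →+* K) (c : 𝓞 Z) : s c ∈ algebraicClosure ℚ K := by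
  have h4 : IsIntegral ℤ (s c) := (Algebra.IsIntegral.isIntegral (R := ℤ) c).map
    (RingHom.toIntAlgHom s)
  exact mem_algebraicClosure_iff.2 (h4.tower_top (A := ℚ)).isAlgebraic

theorem exists_pair [Infinite I] (hF : ∀ n : ℕ, n ≠ 0 → {i | (n : F i) = 0}.Finite)
    {M Z : Type} [Field M] [NumberField M] [Field Z] [NumberField Z] {Ω : Type} [Field Ω]
    [IsAlgClosed Ω] [CharZero Ω] (r : ∀ i, 𝓞 M →+* F i) (s : ∀ i, 𝓞 Z →+* F i) :
    ∃ (τ : M →+* Ω) (σ : Z →+* Ω), ∀ (b : 𝓞 M) (c : 𝓞 Z), {i | r i b ≠ s i c}.Finite →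
      τ (b : M) = σ (c : Z) := by
  obtain ⟨𝔪, h𝔪, hle, hn⟩ := exists_maximal F hF
  let _ : Field ((∀ i, F i) ⧸ 𝔪) := Ideal.Quotient.field 𝔪
  have : CharZero ((∀ i, F i) ⧸ 𝔪) := by
    refine charZero_of_inj_zero fun n h0 => ?_
    by_contra hne
    apply hn n hne
    rw [← Ideal.Quotient.eq_zero_iff_mem, map_natCast]
    exact h0
  let r' : 𝓞 M →+* (∀ i, F i) ⧸ 𝔪 := (Ideal.Quotient.mk 𝔪).comp (RingHom.pi r)
  let s' : 𝓞 Z →+* (∀ i, F i) ⧸ 𝔪 := (Ideal.Quotient.mk 𝔪).comp (RingHom.pi s)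
  obtain ⟨e⟩ := closure_hom ((∀ i, F i) ⧸ 𝔪) Ω
  obtain ⟨τ, hτ⟩ := exists_extension r' e
  obtain ⟨σ, hσ⟩ := exists_extension s' e
  refine ⟨τ, σ, fun b c hbc => ?_⟩
  have h1 : r' b = s' c := by
    show Ideal.Quotient.mk 𝔪 _ = Ideal.Quotient.mk 𝔪 _
    rw [Ideal.Quotient.eq]
    apply hle
    rw [mem_finIdeal]
    refine hbc.subset fun i hi h0 => hi ?_
    show r i b - s i c = 0
    rw [h0, sub_self]
  have h2 : s' c ∈ algebraicClosure ℚ ((∀ i, F i) ⧸ 𝔪) := mem_closure_of_hom s' c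
  rw [hτ b ⟨s' c, h2⟩ h1.symm, hσ c ⟨s' c, h2⟩ rfl]

end Pool.Agent.J4.H13.RC
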